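import Pool.Agent.Y298.CA.Stm

/-!
# Radial integrals (job CA-RA of helper298)
-/

set_option autoImplicit false

open Set Filter Metric MeasureTheory

namespace Pool.Agent.Y737.CA

/-- Polar coordinates for a function of the norm. -/
theorem polar_g (g : ℝ → ENNReal) (hg : Measurable g) :
    ∫⁻ z : ℂ, g ‖z‖ = ENNReal.ofReal (2 * Real.pi) * ∫⁻ r in Ioi (0 : ℝ), ENNReal.ofReal r * g r := by
  rw [← Complex.lintegral_comp_polarCoord_symm (fun z : ℂ => g ‖z‖)]
  have h1 : ∫⁻ p in polarCoord.target, ENNReal.ofReal p.1 • g ‖Complex.polarCoord.symm p‖ =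
      ∫⁻ p in (Ioi (0 : ℝ)) ×ˢ (Ioo (-Real.pi) Real.pi), ENNReal.ofReal p.1 * g p.1 := by
    have hs : MeasurableSet ((Ioi (0 : ℝ)) ×ˢ (Ioo (-Real.pi) Real.pi)) :=
      measurableSet_Ioi.prod measurableSet_Ioo
    refine setLIntegral_congr_fun (by rw [polarCoord_target]; exact hs) ?_
    intro p hp
    rw [polarCoord_target] at hp
    have h0 : 0 < p.1 := hp.1
    simp only [smul_eq_mul]
    rw [Complex.norm_polarCoord_symm, abs_of_pos h0]
  have hm : Measurable fun p : ℝ × ℝ => ENNReal.ofReal p.1 * g p.1 :=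
    (ENNReal.measurable_ofReal.comp measurable_fst).mul (hg.comp measurable_fst)
  rw [h1, Measure.volume_eq_prod, setLIntegral_prod _ hm.aemeasurable]
  have h2 : ∀ x : ℝ, ∫⁻ _ in Ioo (-Real.pi) Real.pi, ENNReal.ofReal x * g x =
      ENNReal.ofReal (2 * Real.pi) * (ENNReal.ofReal x * g x) := by
    intro x
    rw [setLIntegral_const, Real.volume_Ioo, mul_comm]
    congr 2
    ring
  simp only [h2]
  rw [lintegral_const_mul]
  exact (ENNReal.measurable_ofReal.mul hg)

theorem ra : Pool.Agent.Y298.CA.S_RA := by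
  intro a ha _ha2
  refine ⟨2 * Real.pi / a, by positivity, fun R hR => ?_⟩
  have hmeas : Measurable fun r : ℝ => (Iio R).indicator (fun r => ENNReal.ofReal (r ^ (a - 2))) r :=
    (ENNReal.measurable_ofReal.comp (by fun_prop)).indicator measurableSet_Iio
  have h1 : ∫⁻ z in ball (0 : ℂ) R, ENNReal.ofReal (‖z‖ ^ (a - 2)) =
      ∫⁻ z : ℂ, (Iio R).indicator (fun r => ENNReal.ofReal (r ^ (a - 2))) ‖z‖ := by
    rw [← lintegral_indicator measurableSet_ball]
    refine lintegral_congr fun z => ?_
    by_cases hz : ‖z‖ < R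
    · rw [indicator_of_mem (by simpa using hz), indicator_of_mem (by simpa using hz)]
    · rw [indicator_of_notMem (by simpa using hz), indicator_of_notMem (by simpa using hz)]
  rw [h1, polar_g _ hmeas]
  have h2 : ∫⁻ r in Ioi (0 : ℝ), ENNReal.ofReal r *
      (Iio R).indicator (fun r => ENNReal.ofReal (r ^ (a - 2))) r =
      ∫⁻ r in Ioc (0 : ℝ) R, ENNReal.ofReal (r ^ (a - 1)) := by
    rw [← lintegral_indicator measurableSet_Ioi,
      ← setLIntegral_congr (Ioo_ae_eq_Ioc (a := (0 : ℝ)) (b := R)), ← lintegral_indicator measurableSet_Ioo]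
    refine lintegral_congr fun r => ?_
    by_cases h0 : 0 < r
    · rw [indicator_of_mem (by simpa using h0)]
      by_cases hr : r < R
      · rw [indicator_of_mem (by simpa using hr), indicator_of_mem (by exact ⟨h0, hr⟩),
          ← ENNReal.ofReal_mul h0.le]
        congr 1
        rw [show a - 1 = 1 + (a - 2) by ring, Real.rpow_add h0, Real.rpow_one]
      · rw [indicator_of_notMem (by simpa using hr), indicator_of_notMem (fun h => hr h.2), mul_zero]
    · rw [indicator_of_notMem (by simpa using h0), indicator_of_notMem (fun h => h0 h.1)]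
  have hint : IntervalIntegrable (fun x : ℝ => x ^ (a - 1)) volume 0 R :=
    intervalIntegral.intervalIntegrable_rpow' (by linarith)
  have h3 : ∫⁻ r in Ioc (0 : ℝ) R, ENNReal.ofReal (r ^ (a - 1)) = ENNReal.ofReal (R ^ a / a) := by
    rw [← ofReal_integral_eq_lintegral_ofReal]
    · rw [← intervalIntegral.integral_of_le hR, integral_rpow (Or.inl (by linarith))]
      rw [sub_add_cancel, Real.zero_rpow ha.ne', sub_zero]
    · exact (intervalIntegrable_iff_integrableOn_Ioc_of_le hR).1 hint
    · filter_upwards [ae_restrict_mem measurableSet_Ioc] with r hr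
      exact Real.rpow_nonneg hr.1.le _
  rw [h2, h3, ← ENNReal.ofReal_mul (by positivity)]
  refine ENNReal.ofReal_le_ofReal (le_of_eq ?_)
  ring

theorem rb : Pool.Agent.Y298.CA.S_RB := by
  intro d hd
  refine ⟨2 * Real.pi, by positivity, fun x hx => ?_⟩
  rcases hx.eq_or_lt with rfl | hx0
  · have h0 : ∀ z : ℂ, ENNReal.ofReal (min 1 ((0 / ‖z‖) ^ (2 * d))) = 0 := by
      intro z
      rw [zero_div, zero_pow (by omega), min_eq_right zero_le_one, ENNReal.ofReal_zero]
    simp only [h0, lintegral_zero]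
    exact bot_le
  have hmeas : Measurable fun r : ℝ => ENNReal.ofReal (min 1 ((x / r) ^ (2 * d))) :=
    ENNReal.measurable_ofReal.comp (measurable_const.min ((measurable_const.div measurable_id).pow_const _))
  have h1 := polar_g _ hmeas
  rw [h1]
  have hsplit : ∫⁻ r in Ioi (0 : ℝ), ENNReal.ofReal r * ENNReal.ofReal (min 1 ((x / r) ^ (2 * d))) ≤
      (∫⁻ r in Ioc (0 : ℝ) x, ENNReal.ofReal r) + ∫⁻ r in Ioi x, ENNReal.ofReal (x ^ 4 * r ^ (-3 : ℝ)) := by
    rw [← Ioc_union_Ioi_eq_Ioi hx0.le, lintegral_union measurableSet_Ioi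
      (Set.disjoint_left.2 fun r hr hr' => absurd hr.2 (not_le.2 hr'))]
    refine add_le_add ?_ ?_
    · refine setLIntegral_mono (by fun_prop) fun r hr => ?_
      calc ENNReal.ofReal r * ENNReal.ofReal (min 1 ((x / r) ^ (2 * d)))
          ≤ ENNReal.ofReal r * ENNReal.ofReal 1 :=
            mul_le_mul_right (ENNReal.ofReal_le_ofReal (min_le_left _ _)) _
        _ = ENNReal.ofReal r := by rw [ENNReal.ofReal_one, mul_one]
    · refine setLIntegral_mono (by fun_prop) fun r hr => ?_
      have hr0 : 0 < r := hx0.trans hr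
      rw [← ENNReal.ofReal_mul hr0.le]
      refine ENNReal.ofReal_le_ofReal ?_
      have h2 : min 1 ((x / r) ^ (2 * d)) ≤ (x / r) ^ 4 :=
        (min_le_right _ _).trans (pow_le_pow_of_le_one (by positivity)
          ((div_le_one hr0).2 (le_of_lt hr)) (by omega))
      have h3 : (r : ℝ) ^ (-3 : ℝ) = (r ^ 3)⁻¹ := by
        rw [Real.rpow_neg hr0.le]
        norm_cast
      calc r * min 1 ((x / r) ^ (2 * d)) ≤ r * (x / r) ^ 4 := mul_le_mul_of_nonneg_left h2 hr0.le
        _ = x ^ 4 * r ^ (-3 : ℝ) := by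
          rw [h3]
          field_simp
  have e1 : ∫⁻ r in Ioc (0 : ℝ) x, ENNReal.ofReal r = ENNReal.ofReal (x ^ 2 / 2) := by
    rw [← ofReal_integral_eq_lintegral_ofReal]
    · rw [← intervalIntegral.integral_of_le hx0.le, integral_id]
      congr 1
      ring
    · exact (intervalIntegrable_iff_integrableOn_Ioc_of_le hx0.le).1 intervalIntegral.intervalIntegrable_id
    · filter_upwards [ae_restrict_mem measurableSet_Ioc] with r hr
      exact hr.1.le
  have e2 : ∫⁻ r in Ioi x, ENNReal.ofReal (x ^ 4 * r ^ (-3 : ℝ)) = ENNReal.ofReal (x ^ 2 / 2) := by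
    rw [← ofReal_integral_eq_lintegral_ofReal]
    · rw [integral_const_mul, integral_Ioi_rpow_of_lt (by norm_num) hx0]
      congr 1
      have : x ^ ((-3 : ℝ) + 1) = (x ^ 2)⁻¹ := by
        rw [show (-3 : ℝ) + 1 = -2 by norm_num, Real.rpow_neg hx0.le]
        norm_cast
      rw [this]
      field_simp
      norm_num
    · exact (integrableOn_Ioi_rpow_of_lt (by norm_num) hx0).const_mul _
    · filter_upwards [ae_restrict_mem measurableSet_Ioi] with r hr
      have hr0 : 0 < r := hx0.trans hr
      positivity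
  rw [e1, e2, ← ENNReal.ofReal_add (by positivity) (by positivity)] at hsplit
  calc ENNReal.ofReal (2 * Real.pi) * _ ≤ ENNReal.ofReal (2 * Real.pi) *
        ENNReal.ofReal (x ^ 2 / 2 + x ^ 2 / 2) := mul_le_mul_right hsplit _
    _ = ENNReal.ofReal (2 * Real.pi * x ^ 2) := by
      rw [← ENNReal.ofReal_mul (by positivity)]
      congr 1
      ring

end Pool.Agent.Y737.CA
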